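import Pool.Agent.H82.PP.Per
import Pool.Agent.Results.MP_c9a594_an.SmoothLiouville

/-!
# Large prime powers in the denominator
-/

set_option autoImplicit false

namespace Pool.Agent.H82.PP

open Finset Pool.Agent.Y943.Fu

/-- lifting the exponent -/
theorem fac_pow_sub_one {p x n : ℕ} (hp : p.Prime) (hx : 2 ≤ x) (h1 : p ∣ x - 1)
    (h4 : p = 2 → 4 ∣ x - 1) (hn : 1 ≤ n) :
    (x ^ n - 1).factorization p = (x - 1).factorization p + n.factorization p := by
  have := Fact.mk hp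
  have hxz : (2 : ℤ) ≤ x := by exact_mod_cast hx
  have hcast : ((x - 1 : ℕ) : ℤ) = (x : ℤ) - 1 := by
    rw [Nat.cast_sub (by omega)]; push_cast; ring
  have hxn : 2 ≤ x ^ n := hx.trans (Nat.le_self_pow (by omega) x)
  have hcast2 : ((x ^ n - 1 : ℕ) : ℤ) = (x : ℤ) ^ n - 1 ^ n := by
    rw [Nat.cast_sub (by omega)]; push_cast; ring
  have hpB : (p : ℤ) ∣ (x : ℤ) - 1 := by
    rw [← hcast]; exact Int.natCast_dvd_natCast.2 h1
  have hpint : Prime (p : ℤ) := Nat.prime_iff_prime_int.1 hp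
  have hnB : ¬ (p : ℤ) ∣ (x : ℤ) := by
    intro h
    have h2 : (p : ℤ) ∣ 1 := by
      have := dvd_sub h hpB
      simpa using this
    exact hpint.not_isUnit (isUnit_of_dvd_one h2)
  have hmul : emultiplicity (p : ℤ) ((x : ℤ) ^ n - 1 ^ n) = emultiplicity (p : ℤ) ((x : ℤ) - 1) +
      emultiplicity (p : ℤ) (n : ℤ) := by
    rcases hp.eq_two_or_odd' with rfl | hodd
    · have h5 : (4 : ℤ) ∣ (x : ℤ) - 1 := by
        rw [← hcast]; exact_mod_cast h4 rfl
      have := Int.two_pow_sub_pow' n (x := (x : ℤ)) (y := 1) h5 (by exact_mod_cast hnB)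
      exact_mod_cast this
    · have := Int.emultiplicity_pow_sub_pow hp hodd (x := (x : ℤ)) (y := 1) hpB hnB n
      rw [this]
      congr 1
      exact (Int.natCast_emultiplicity p n).symm
  rw [← hcast2, ← hcast, Int.natCast_emultiplicity, Int.natCast_emultiplicity,
    Int.natCast_emultiplicity, ← padicValNat_eq_emultiplicity (by omega),
    ← padicValNat_eq_emultiplicity (by omega), ← padicValNat_eq_emultiplicity (by omega)] at hmul
  rw [Nat.factorization_def _ hp, Nat.factorization_def _ hp, Nat.factorization_def _ hp]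
  exact_mod_cast hmul

/-- the geometric sums cover the residues -/
theorem geom_cover {p : ℕ} (hp : p.Prime) {B : ℤ} (hB : 2 ≤ B) (h1 : (p : ℤ) ∣ B - 1)
    (h4 : p = 2 → (4 : ℤ) ∣ B - 1) (n : ℕ) (z : ℤ) :
    ∃ k : ℕ, k < p ^ n ∧ ((p ^ n : ℕ) : ℤ) ∣ z - ∑ i ∈ range k, B ^ i := by
  set q := p ^ n with hq
  have hq1 : 1 ≤ q := Nat.one_le_pow _ _ hp.pos
  have : NeZero q := ⟨by omega⟩
  have hs : ∀ r : ℕ, r.Prime → r ∣ p → (r : ℤ) ∣ B - 1 := by
    intro r hr hrp
    rw [(Nat.prime_dvd_prime_iff_eq hr hp).1 hrp]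
    exact h1
  have h4' : 2 ∣ p → (4 : ℤ) ∣ B - 1 := fun h =>
    h4 ((Nat.prime_dvd_prime_iff_eq Nat.prime_two hp).1 h).symm
  have hqs : ∀ r : ℕ, r.Prime → r ∣ q → r ∣ p := fun r hr h => hr.dvd_of_dvd_pow h
  let g : Fin q → ZMod q := fun k => ((∑ i ∈ range (k : ℕ), B ^ i : ℤ) : ZMod q)
  have hpint : Prime (p : ℤ) := Nat.prime_iff_prime_int.1 hp
  have hpB : ¬ (p : ℤ) ∣ B := by
    intro h
    have h2 : (p : ℤ) ∣ 1 := by
      have := dvd_sub h h1
      simpa using this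
    exact hpint.not_isUnit (isUnit_of_dvd_one h2)
  have hco : IsCoprime B ((B - 1) * q) := by
    refine IsCoprime.mul_right ⟨1, -1, by ring⟩ ?_
    rw [hq]
    push_cast
    exact IsCoprime.pow_right ((hpint.coprime_iff_not_dvd.2 hpB).symm)
  have hinj : Function.Injective g := by
    have hlt : ∀ k l : Fin q, (k : ℕ) < l → g k = g l → False := by
      intro k l hkl he
      have h1 : (q : ℤ) ∣ (∑ i ∈ range (l : ℕ), B ^ i) - ∑ i ∈ range (k : ℕ), B ^ i := by
        have h2 : ((∑ i ∈ range (k : ℕ), B ^ i : ℤ) : ZMod q) =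
          ((∑ i ∈ range (l : ℕ), B ^ i : ℤ) : ZMod q) := he
        exact (ZMod.intCast_eq_intCast_iff_dvd_sub _ _ q).1 h2
      have h2 : (B - 1) * q ∣ B ^ (k : ℕ) * (B ^ ((l : ℕ) - k) - 1) := by
        have h3 : B ^ (k : ℕ) * (B ^ ((l : ℕ) - k) - 1) =
            (B - 1) * ((∑ i ∈ range (l : ℕ), B ^ i) - ∑ i ∈ range (k : ℕ), B ^ i) := by
          rw [mul_sub (B - 1), mul_geom_sum, mul_geom_sum, mul_sub, ← pow_add,
            Nat.add_sub_cancel' hkl.le]
          ring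
        rw [h3]
        exact mul_dvd_mul_left _ h1
      have h3 : (B - 1) * q ∣ B ^ ((l : ℕ) - k) - 1 :=
        (hco.symm.pow_right).dvd_of_dvd_mul_left h2
      have h5 := Pool.Agent.Results.MP_c9a594_an.SmoothLiouville.lte hB hs h4' hqs h3
      have h6 := Nat.le_of_dvd (by omega) h5
      have := l.2
      omega
    intro k l he
    rcases lt_trichotomy (k : ℕ) l with h | h | h
    · exact (hlt k l h he).elim
    · exact Fin.ext h
    · exact (hlt l k h he.symm).elim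
  have hbij : Function.Bijective g := by
    rw [Fintype.bijective_iff_injective_and_card]
    exact ⟨hinj, by simp [ZMod.card]⟩
  obtain ⟨k, hk⟩ := hbij.2 (z : ZMod q)
  exact ⟨k, k.2, (ZMod.intCast_eq_intCast_iff_dvd_sub _ _ q).1 hk⟩

/-- **The orbit contains a progression with a small difference.** -/
theorem dense_pp {b p e m n₀ D : ℕ} (hb : 2 ≤ b) (hp : p.Prime) (hpb : ¬ p ∣ b) (hm : 1 ≤ m)
    (hpm : ¬ p ∣ m) (hD : 1 ≤ D) (hdvd : m ∣ b ^ n₀ * (b ^ D - 1)) {c : ℤ} (hc : ¬ (p : ℤ) ∣ c)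
    {w : ℕ} (hw : w = (b ^ (p * (p - 1)) - 1).factorization p + D.factorization p) (hwe : w ≤ e)
    (y : ℝ) : ∃ i : ℕ, i ≤ n₀ + D * p ^ e ∧ ∃ z : ℤ,
      |(b : ℝ) ^ i * (c / ((p ^ e * m : ℕ) : ℝ)) - y - z| ≤ 1 / (p : ℝ) ^ (e - w) := by
  have hp0 : (0 : ℝ) < p := by exact_mod_cast hp.pos
  have hp2 := hp.two_le
  set A := b ^ (p * (p - 1)) with hA
  have hpp1 : 1 ≤ p * (p - 1) := Nat.mul_pos hp.pos (Nat.sub_pos_of_lt hp.one_lt)
  have hA2 : 2 ≤ A := hb.trans (Nat.le_self_pow (by omega) b)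
  -- `p ^ 2 ∣ A - 1`
  have hA1 : p ^ 2 ∣ A - 1 := by
    have h1 : Nat.Coprime b (p ^ 2) :=
      Nat.Coprime.pow_right _ ((Nat.Prime.coprime_iff_not_dvd hp).2 hpb).symm
    have h2 := Nat.ModEq.pow_totient h1
    rw [Nat.totient_prime_pow hp (by norm_num)] at h2
    have h3 := (Nat.modEq_iff_dvd' (Nat.one_le_pow _ _ (by omega))).1 h2.symm
    simpa [hA] using h3
  have hAp : p ∣ A - 1 := (dvd_pow_self p (by norm_num)).trans hA1
  have hA4 : p = 2 → 4 ∣ A - 1 := by
    rintro rfl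
    exact hA1
  have hw2 : 2 ≤ w := by
    have : 2 ≤ (A - 1).factorization p := (hp.pow_dvd_iff_le_factorization (by omega)).1 hA1
    omega
  set B := A ^ D with hB
  have hBA : A - 1 ∣ B - 1 := by
    have := Nat.sub_dvd_pow_sub_pow A 1 D
    rwa [one_pow] at this
  have hB2 : 2 ≤ B := hA2.trans (Nat.le_self_pow (by omega) A)
  have hfac : (B - 1).factorization p = w := by
    rw [hw]
    exact fac_pow_sub_one hp hA2 hAp hA4 hD
  have hbB : b ^ D - 1 ∣ B - 1 := by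
    have h1 : B = (b ^ D) ^ (p * (p - 1)) := by
      rw [hB, hA, ← pow_mul, ← pow_mul, mul_comm]
    have := Nat.sub_dvd_pow_sub_pow (b ^ D) 1 (p * (p - 1))
    rwa [one_pow, ← h1] at this
  -- the quotient
  obtain ⟨s, hs⟩ : m ∣ b ^ n₀ * (B - 1) := hdvd.trans (Nat.mul_dvd_mul_left _ hbB)
  have hs0 : s ≠ 0 := by
    rintro rfl
    rw [mul_zero] at hs
    have h1 : b ^ n₀ ≠ 0 := by positivity
    have h2 : B - 1 ≠ 0 := by omega
    exact mul_ne_zero h1 h2 hs
  have hsfac : s.factorization p = w := by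
    have h1 : (b ^ n₀ * (B - 1)).factorization p = (m * s).factorization p := by rw [hs]
    rw [Nat.factorization_mul (by positivity) (by omega), Nat.factorization_mul (by omega) hs0,
      Finsupp.add_apply, Finsupp.add_apply, Nat.factorization_pow, Finsupp.smul_apply,
      Nat.factorization_eq_zero_of_not_dvd hpb, Nat.factorization_eq_zero_of_not_dvd hpm, hfac] at h1
    simpa using h1.symm
  obtain ⟨s', hs'⟩ : p ^ w ∣ s := (hp.pow_dvd_iff_le_factorization hs0).2 hsfac.ge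
  have hps' : ¬ p ∣ s' := by
    intro h
    obtain ⟨t, rfl⟩ := h
    have h1 : p ^ (w + 1) ∣ s := ⟨t, by rw [hs']; ring⟩
    have := (hp.pow_dvd_iff_le_factorization hs0).1 h1
    omega
  -- the target
  set n := e - w with hn
  set y₀ : ℝ := (b : ℝ) ^ n₀ * (c / ((p ^ e * m : ℕ) : ℝ)) with hy₀
  set t : ℤ := round ((p : ℝ) ^ n * (y - y₀)) with ht
  have hpint : Prime (p : ℤ) := Nat.prime_iff_prime_int.1 hp
  have hcop : IsCoprime (c * s' : ℤ) ((p ^ n : ℕ) : ℤ) := by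
    push_cast
    refine IsCoprime.pow_right ((hpint.coprime_iff_not_dvd.2 ?_).symm)
    intro h
    rcases hpint.dvd_or_dvd h with h | h
    · exact hc h
    · exact hps' (Int.natCast_dvd_natCast.1 h)
  obtain ⟨α, β, hαβ⟩ := hcop
  have hBz : (2 : ℤ) ≤ (B : ℤ) := by exact_mod_cast hB2
  have hcastB : ((B - 1 : ℕ) : ℤ) = (B : ℤ) - 1 := by
    rw [Nat.cast_sub (by omega)]; push_cast; ring
  obtain ⟨k, hk, u, hu⟩ := geom_cover hp hBz
    (by rw [← hcastB]; exact Int.natCast_dvd_natCast.2 (hAp.trans hBA))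
    (by
      intro h2
      rw [← hcastB]
      exact_mod_cast (hA4 h2).trans hBA) n (t * α)
  refine ⟨n₀ + D * (p * (p - 1)) * k, ?_, ?_⟩
  · have h1 : p * (p - 1) * k ≤ p ^ e := by
      calc p * (p - 1) * k ≤ p * p * p ^ n := by
            gcongr
            omega
        _ = p ^ (n + 2) := by ring
        _ ≤ p ^ e := Nat.pow_le_pow_right hp.pos (by omega)
    calc n₀ + D * (p * (p - 1)) * k = n₀ + D * (p * (p - 1) * k) := by ring
      _ ≤ n₀ + D * p ^ e := by gcongr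
  · -- the integer
    set Gk : ℤ := ∑ i ∈ range k, (B : ℤ) ^ i with hGk
    have hm0 : (0 : ℝ) < m := by exact_mod_cast hm
    have e1 : (b : ℝ) ^ (n₀ + D * (p * (p - 1)) * k) = (b : ℝ) ^ n₀ * (B : ℝ) ^ k := by
      rw [hB, hA]
      push_cast
      rw [pow_add, ← pow_mul, ← pow_mul]
      congr 2
      ring
    have e2 : ((B : ℝ) - 1) * (Gk : ℝ) = (B : ℝ) ^ k - 1 := by
      rw [hGk]
      push_cast
      exact mul_geom_sum _ _
    have e3 : (b : ℝ) ^ n₀ * ((B : ℝ) - 1) = m * (p ^ w * s') := by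
      have : ((b ^ n₀ * (B - 1) : ℕ) : ℝ) = ((m * (p ^ w * s') : ℕ) : ℝ) := by rw [hs, hs']
      rw [Nat.cast_mul, Nat.cast_sub (by omega)] at this
      push_cast at this
      exact this
    have e4 : (b : ℝ) ^ (n₀ + D * (p * (p - 1)) * k) * (c / ((p ^ e * m : ℕ) : ℝ)) =
        y₀ + c * s' * Gk / (p : ℝ) ^ n := by
      rw [e1, hy₀]
      have e5 : (p : ℝ) ^ e = (p : ℝ) ^ n * (p : ℝ) ^ w := by
        rw [← pow_add]
        congr 1
        omega
      have e6 : (b : ℝ) ^ n₀ * (B : ℝ) ^ k = (b : ℝ) ^ n₀ + m * (p ^ w * s') * Gk := by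
        rw [← e3, mul_assoc, e2]
        ring
      rw [e6]
      push_cast
      rw [e5]
      field_simp
    -- the residue
    have e7 : ∃ v : ℤ, (c * s' * Gk : ℤ) = t + (p : ℤ) ^ n * v := by
      refine ⟨-(c * s' * u) - t * β, ?_⟩
      push_cast at hu hαβ
      have h1 : Gk = t * α - (p : ℤ) ^ n * u := by linarith
      rw [h1]
      have h2 : α * (c * s') = 1 - β * (p : ℤ) ^ n := by linarith
      calc (c * s' * (t * α - (p : ℤ) ^ n * u) : ℤ) = t * (α * (c * s')) - c * s' * (p : ℤ) ^ n * u := by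
            ring
        _ = _ := by rw [h2]; ring
    obtain ⟨v, hv⟩ := e7
    refine ⟨v, ?_⟩
    rw [e4]
    have e8 : (c * s' * Gk : ℝ) = t + (p : ℝ) ^ n * v := by exact_mod_cast hv
    have hpn : (0 : ℝ) < (p : ℝ) ^ n := by positivity
    rw [e8]
    have e9 : y₀ + (t + (p : ℝ) ^ n * v) / (p : ℝ) ^ n - y - v =
        -(((p : ℝ) ^ n * (y - y₀)) - t) / (p : ℝ) ^ n := by
      field_simp
      ring
    rw [e9, abs_div, abs_neg, abs_of_pos hpn]
    have h3 := abs_sub_round ((p : ℝ) ^ n * (y - y₀))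
    rw [← ht] at h3
    gcongr
    linarith

end Pool.Agent.H82.PP
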