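import Pool.Agent.H82.PP.Main

/-!
# Sparse subseries of the series for `e`
-/

set_option autoImplicit false

namespace Pool.Agent.H82.PP

open Finset Filter Topology Pool.Agent.Y943.Fu

section

variable {u : ℕ → ℕ} (hu : ∀ k, 2 * (u k).factorial ^ (u k).factorial ≤ u (k + 1))

include hu

theorem u_double (k : ℕ) : 2 * u k ≤ u (k + 1) := by
  refine le_trans ?_ (hu k)
  have h1 : u k ≤ (u k).factorial := Nat.self_le_factorial _
  have h2 : (u k).factorial ≤ (u k).factorial ^ (u k).factorial :=
    Nat.le_self_pow (Nat.factorial_ne_zero _) _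
  omega

theorem u_fac (k : ℕ) : 2 * (u k).factorial ≤ (u (k + 1)).factorial := by
  have h1 : u (k + 1) ≤ (u (k + 1)).factorial := Nat.self_le_factorial _
  have h2 : (u k).factorial ≤ (u k).factorial ^ (u k).factorial :=
    Nat.le_self_pow (Nat.factorial_ne_zero _) _
  have := hu k
  omega

theorem u_large (k : ℕ) : k ≤ u (k + 1) := by
  induction k with
  | zero => omega
  | succ k ih =>
    have h1 := u_double hu (k + 1)
    have h2 := hu k
    have h3 : 1 ≤ (u k).factorial ^ (u k).factorial :=
      Nat.one_le_pow _ _ (Nat.factorial_pos _)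
    omega

theorem u_mono : Monotone u := monotone_nat_of_le_succ fun k => by
  have := u_double hu k
  omega

theorem u_geom (k i : ℕ) : 2 ^ i * (u k).factorial ≤ (u (k + i)).factorial := by
  induction i with
  | zero => simp
  | succ i ih =>
    have h1 := u_fac hu (k + i)
    rw [pow_succ, show k + (i + 1) = k + i + 1 by ring]
    nlinarith

theorem term_le (k i : ℕ) : 1 / ((u (k + i)).factorial : ℝ) ≤
    1 / ((u k).factorial : ℝ) * (1 / 2) ^ i := by
  have h1 : ((2 ^ i * (u k).factorial : ℕ) : ℝ) ≤ ((u (k + i)).factorial : ℝ) := by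
    exact_mod_cast u_geom hu k i
  push_cast at h1
  have h2 : (0 : ℝ) < (u k).factorial := by exact_mod_cast Nat.factorial_pos _
  calc 1 / ((u (k + i)).factorial : ℝ) ≤ 1 / (2 ^ i * (u k).factorial : ℝ) :=
        one_div_le_one_div_of_le (by positivity) h1
    _ = 1 / ((u k).factorial : ℝ) * (1 / 2) ^ i := by
        rw [div_pow, one_pow]
        field_simp

theorem summ (k : ℕ) : Summable fun i : ℕ => 1 / ((u (k + i)).factorial : ℝ) :=
  Summable.of_nonneg_of_le (fun i => by positivity) (fun i => term_le hu k i)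
    ((summable_geometric_of_lt_one (by norm_num) (by norm_num)).mul_left _)

theorem tail_le (k : ℕ) : ∑' i : ℕ, 1 / ((u (k + i)).factorial : ℝ) ≤
    2 / ((u k).factorial : ℝ) := by
  have h1 := (summ hu k).tsum_le_tsum (fun i => term_le hu k i)
    ((summable_geometric_of_lt_one (by norm_num : (0 : ℝ) ≤ 1 / 2) (by norm_num)).mul_left _)
  rw [tsum_mul_left, tsum_geometric_of_lt_one (by norm_num) (by norm_num)] at h1
  refine h1.trans (le_of_eq ?_)
  norm_num
  ring

/-- the series `∑ 1 / (u k)!` is extremely well approximated by its partial sums -/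
theorem series_close (K : ℕ) : ∃ n : ℕ, K ≤ n ∧ ∃ c : ℤ,
    (∀ p : ℕ, p.Prime → p ≤ K → ¬ (p : ℤ) ∣ c) ∧
    |∑' k, 1 / ((u k).factorial : ℝ) - c / (n.factorial : ℝ)| ≤
      1 / (n.factorial : ℝ) ^ n.factorial := by
  have hmono := u_mono hu
  set k := K + 1 with hk
  have hKu : K ≤ u k := u_large hu K
  -- the integers
  have hdvd : ∀ j, j ≤ k + 1 → (u j).factorial ∣ (u (k + 1)).factorial := fun j hj =>
    Nat.factorial_dvd_factorial (hmono hj)
  set c : ℤ := ∑ j ∈ range (k + 2), (((u (k + 1)).factorial / (u j).factorial : ℕ) : ℤ) with hc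
  have hn1 : 2 * u k ≤ u (k + 1) := u_double hu k
  refine ⟨u (k + 1), by omega, c, fun p hp hpK hpc => ?_, ?_⟩
  · -- all terms but the last are divisible by `p`
    rw [hc, sum_range_succ, Nat.div_self (Nat.factorial_pos _)] at hpc
    have h1 : (p : ℤ) ∣ ∑ j ∈ range (k + 1), (((u (k + 1)).factorial / (u j).factorial : ℕ) : ℤ) := by
      refine dvd_sum fun j hj => ?_
      rw [mem_range] at hj
      refine Int.natCast_dvd_natCast.2 ?_
      have h2 : u j ≤ u k := hmono (by omega)
      have h3 : u j + p ≤ u (k + 1) := by omega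
      have h4 : (u j + p).factorial ∣ (u (k + 1)).factorial := Nat.factorial_dvd_factorial h3
      have h5 : (u j).factorial * p.factorial ∣ (u j + p).factorial :=
        Nat.factorial_mul_factorial_dvd_factorial_add _ _
      have h6 : (u j).factorial * p.factorial ∣ (u (k + 1)).factorial := h5.trans h4
      have h7 : p.factorial ∣ (u (k + 1)).factorial / (u j).factorial :=
        Nat.dvd_div_of_mul_dvd h6
      exact ((hp.dvd_factorial).2 le_rfl).trans h7
    have h2 : (p : ℤ) ∣ 1 := by
      have := dvd_sub hpc h1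
      simpa using this
    have h3 := Int.le_of_dvd one_pos h2
    have := hp.two_le
    omega
  · have h1 := ((summ hu 0).congr (fun i => by rw [zero_add]) : Summable fun i : ℕ =>
      1 / ((u i).factorial : ℝ))
    have h2 := h1.sum_add_tsum_nat_add (k + 2)
    have hfac0 : ((u (k + 1)).factorial : ℝ) ≠ 0 := by exact_mod_cast Nat.factorial_ne_zero _
    have h3 : (c : ℝ) / ((u (k + 1)).factorial : ℝ) =
        ∑ i ∈ range (k + 2), 1 / ((u i).factorial : ℝ) := by
      rw [hc, Int.cast_sum, sum_div]
      refine sum_congr rfl fun j hj => ?_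
      rw [mem_range] at hj
      have h4 : ((u j).factorial : ℝ) ≠ 0 := by exact_mod_cast Nat.factorial_ne_zero _
      rw [Int.cast_natCast, Nat.cast_div (hdvd j (by omega)) h4]
      field_simp
    rw [← h2, h3, add_sub_cancel_left]
    have h4 : ∑' i : ℕ, 1 / ((u (i + (k + 2))).factorial : ℝ) =
        ∑' i : ℕ, 1 / ((u (k + 2 + i)).factorial : ℝ) :=
      tsum_congr fun i => by rw [add_comm]
    rw [h4, abs_of_nonneg (tsum_nonneg fun i => by positivity)]
    refine (tail_le hu (k + 2)).trans ?_
    have h5 : 2 * (u (k + 1)).factorial ^ (u (k + 1)).factorial ≤ (u (k + 2)).factorial :=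
      (hu (k + 1)).trans (Nat.self_le_factorial _)
    have h6 : (2 * ((u (k + 1)).factorial : ℝ) ^ (u (k + 1)).factorial) ≤
        ((u (k + 2)).factorial : ℝ) := by exact_mod_cast h5
    have h7 : (0 : ℝ) < ((u (k + 1)).factorial : ℝ) ^ (u (k + 1)).factorial := by positivity
    rw [div_le_div_iff₀ (by positivity) h7]
    linarith

end

end Pool.Agent.H82.PP
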