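import Pool.Agent.H82.PP.Cov

/-!
# Dense orbits of numbers close to fractions with large prime powers in the denominator
-/

set_option autoImplicit false

namespace Pool.Agent.H82.PP

open Finset Filter Topology Pool.Agent.Y943.Fu

/-- the local criterion -/
theorem local_crit {b : ℕ} (hb : 2 ≤ b) {x : ℝ}
    (h : ∀ K : ℕ, ∃ (p e m n₀ D : ℕ) (c : ℤ), p.Prime ∧ ¬ p ∣ b ∧ 1 ≤ m ∧ ¬ p ∣ m ∧ 1 ≤ D ∧
      m ∣ b ^ n₀ * (b ^ D - 1) ∧ ¬ (p : ℤ) ∣ c ∧
      K * (b ^ (p ^ 2) * p ^ D.factorization p) ≤ p ^ e ∧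
      K * ((b : ℝ) ^ (n₀ + D * p ^ e) * |x - c / ((p ^ e * m : ℕ) : ℝ)|) ≤ 1) :
    orb b x = Set.Icc 0 1 := by
  refine orb_of_fractions fun ε hε => ?_
  obtain ⟨K, hK⟩ := exists_nat_gt (1 / ε)
  have hK0 : (0 : ℝ) < K := lt_trans (by positivity) hK
  have hKε : 1 / (K : ℝ) < ε := by
    rw [div_lt_iff₀ hK0]
    rw [div_lt_iff₀ hε] at hK
    linarith
  obtain ⟨p, e, m, n₀, D, c, hp, hpb, hm, hpm, hD, hdvd, hc, hlarge, hclose⟩ := h K
  have hb1 : (1 : ℝ) ≤ b := by exact_mod_cast (by omega : 1 ≤ b)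
  have hp1 : (1 : ℝ) ≤ p := by exact_mod_cast hp.pos
  have hp0 : (0 : ℝ) < p := by linarith
  refine ⟨c, p ^ e * m, n₀ + D * p ^ e, fun n hn => ?_, fun y => ?_⟩
  · rw [abs_mul, abs_of_pos (by positivity : (0 : ℝ) < (b : ℝ) ^ n)]
    refine lt_of_le_of_lt ?_ hKε
    rw [le_div_iff₀ hK0]
    have h1 : (b : ℝ) ^ n ≤ (b : ℝ) ^ (n₀ + D * p ^ e) := pow_le_pow_right₀ hb1 hn
    have h2 : (b : ℝ) ^ n * |x - c / ((p ^ e * m : ℕ) : ℝ)| ≤
        (b : ℝ) ^ (n₀ + D * p ^ e) * |x - c / ((p ^ e * m : ℕ) : ℝ)| := by gcongr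
    have h3 := mul_le_mul_of_nonneg_left h2 hK0.le
    linarith
  · set w := (b ^ (p * (p - 1)) - 1).factorization p + D.factorization p with hw
    have hA0 : b ^ (p * (p - 1)) - 1 ≠ 0 := by
      have hpp1 : 1 ≤ p * (p - 1) := Nat.mul_pos hp.pos (Nat.sub_pos_of_lt hp.one_lt)
      have : 2 ≤ b ^ (p * (p - 1)) := hb.trans (Nat.le_self_pow (by omega) b)
      omega
    have h1 : p ^ (b ^ (p * (p - 1)) - 1).factorization p ≤ b ^ (p ^ 2) := by
      calc p ^ (b ^ (p * (p - 1)) - 1).factorization p ≤ b ^ (p * (p - 1)) - 1 :=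
            Nat.le_of_dvd (by omega) (Nat.ordProj_dvd _ _)
        _ ≤ b ^ (p * (p - 1)) := Nat.sub_le _ _
        _ ≤ b ^ (p ^ 2) := by
            apply Nat.pow_le_pow_right (by omega)
            rw [sq]
            exact Nat.mul_le_mul_left _ (Nat.sub_le _ _)
    have hKn : 1 ≤ K := by
      have : (0 : ℝ) < K := hK0
      exact_mod_cast this
    have h2 : K * p ^ w ≤ p ^ e := by
      refine le_trans ?_ hlarge
      rw [hw, pow_add]
      gcongr
    have hwe : w ≤ e := by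
      by_contra hcon
      push Not at hcon
      have h3 : p ^ e < p ^ w := Nat.pow_lt_pow_right hp.one_lt hcon
      have h4 : p ^ w ≤ K * p ^ w := Nat.le_mul_of_pos_left _ hKn
      omega
    obtain ⟨i, hi, z, hz⟩ := dense_pp hb hp hpb hm hpm hD hdvd hc hw hwe y
    refine ⟨i, hi, z, lt_of_le_of_lt hz (lt_of_le_of_lt ?_ hKε)⟩
    have h4 : K ≤ p ^ (e - w) := by
      have h5 : p ^ e = p ^ (e - w) * p ^ w := by
        rw [← pow_add]
        congr 1
        omega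
      rw [h5] at h2
      exact Nat.le_of_mul_le_mul_right h2 (pow_pos hp.pos w)
    have h6 : (K : ℝ) ≤ (p : ℝ) ^ (e - w) := by exact_mod_cast h4
    exact one_div_le_one_div_of_le hK0 h6

/-- prime powers larger than the prime factors of the other part of the denominator -/
theorem smooth_crit {b : ℕ} (hb : 2 ≤ b) {x : ℝ}
    (h : ∀ K : ℕ, ∃ (p e m : ℕ) (c : ℤ), p.Prime ∧ ¬ p ∣ b ∧ 1 ≤ m ∧ ¬ p ∣ m ∧ ¬ (p : ℤ) ∣ c ∧
      K * b ^ (p ^ 2) ≤ p ^ e ∧ (∀ r : ℕ, r.Prime → r ∣ m → K * b ^ (p ^ 2) * r ≤ p ^ e) ∧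
      K * ((b : ℝ) ^ (2 * (p ^ e * m)) * |x - c / ((p ^ e * m : ℕ) : ℝ)|) ≤ 1) :
    orb b x = Set.Icc 0 1 := by
  refine local_crit hb fun K => ?_
  obtain ⟨p, e, m, c, hp, hpb, hm, hpm, hc, h1, h2, h3⟩ := h K
  have hb1 : (1 : ℝ) ≤ b := by exact_mod_cast (by omega : 1 ≤ b)
  refine ⟨p, e, m, m, per b m, c, hp, hpb, hm, hpm, Nat.pos_of_ne_zero (per_pos b m),
    dvd_per (by omega) hm Nat.lt_two_pow_self, hc, ?_, ?_⟩
  · rcases per_part (b := b) hp hpm with h4 | ⟨r, hr, hrm, h4⟩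
    · rw [h4, pow_zero, mul_one]
      exact h1
    · calc K * (b ^ (p ^ 2) * p ^ (per b m).factorization p) ≤ K * (b ^ (p ^ 2) * r) := by gcongr
        _ = K * b ^ (p ^ 2) * r := by ring
        _ ≤ p ^ e := h2 r hr hrm
  · refine le_trans ?_ h3
    have h5 : m + per b m * p ^ e ≤ 2 * (p ^ e * m) := by
      have h6 := per_le (b := b) hm
      have h7 : 1 ≤ p ^ e := Nat.one_le_pow _ _ hp.pos
      calc m + per b m * p ^ e ≤ m * p ^ e + m * p ^ e := by
            gcongr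
            exact Nat.le_mul_of_pos_right _ (by omega)
        _ = 2 * (p ^ e * m) := by ring
    gcongr

theorem pow_dvd_factorial {p : ℕ} (hp : 1 ≤ p) (k : ℕ) : p ^ k ∣ (p * k).factorial := by
  induction k with
  | zero => simp
  | succ k ih =>
    have h1 : p * (k + 1) = (p * k + p - 1) + 1 := by
      rw [mul_add]
      omega
    rw [h1, Nat.factorial_succ, pow_succ, mul_comm (p ^ k)]
    refine Nat.mul_dvd_mul ?_ (ih.trans (Nat.factorial_dvd_factorial (by omega)))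
    rw [← h1]
    exact dvd_mul_right _ _

/-- **factorials in the denominators, all bases** -/
theorem factorial_crit {x : ℝ}
    (h : ∀ K : ℕ, ∃ n : ℕ, K ≤ n ∧ ∃ c : ℤ, (∀ p : ℕ, p.Prime → p ≤ K → ¬ (p : ℤ) ∣ c) ∧
      |x - c / (n.factorial : ℝ)| ≤ 1 / (n.factorial : ℝ) ^ n.factorial) {b : ℕ} (hb : 2 ≤ b) :
    orb b x = Set.Icc 0 1 := by
  -- a prime which does not divide `b`
  obtain ⟨p, hp, hpb⟩ : ∃ p : ℕ, p.Prime ∧ ¬ p ∣ b := by
    obtain ⟨p, hpb, hp⟩ := Nat.exists_infinite_primes (b + 1)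
    exact ⟨p, hp, fun hd => by have := Nat.le_of_dvd (by omega) hd; omega⟩
  refine smooth_crit hb fun K => ?_
  -- growth of the prime power
  have hlim : ∀ᶠ k : ℕ in atTop, K * b ^ (p ^ 2) * (p * (k + 1)) ≤ p ^ k := by
    have h1 : Tendsto (fun k : ℕ => ((k : ℝ) ^ 1 * (1 / p : ℝ) ^ k)) atTop (𝓝 0) := by
      have hp1 : (1 : ℝ) < p := by exact_mod_cast hp.one_lt
      refine tendsto_pow_const_mul_const_pow_of_abs_lt_one 1 ?_
      rw [abs_of_pos (by positivity), div_lt_one (by linarith)]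
      exact hp1
    have hc : (0 : ℝ) < 1 / (2 * (K * b ^ (p ^ 2) * p + 1)) := by positivity
    filter_upwards [h1.eventually (gt_mem_nhds hc), eventually_ge_atTop 1] with k hk hk1
    have hp0 : (0 : ℝ) < p := by exact_mod_cast hp.pos
    rw [pow_one, div_pow, one_pow, mul_one_div, div_lt_iff₀ (by positivity)] at hk
    have h2 : (k : ℝ) * (2 * (K * b ^ (p ^ 2) * p + 1)) < (p : ℝ) ^ k := by
      rw [one_div_mul_eq_div, lt_div_iff₀ (by positivity)] at hk
      exact hk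
    have h3 : ((K * b ^ (p ^ 2) * (p * (k + 1)) : ℕ) : ℝ) ≤ ((p ^ k : ℕ) : ℝ) := by
      push_cast
      have hk1' : (1 : ℝ) ≤ k := by exact_mod_cast hk1
      have h4 : (0 : ℝ) ≤ K * b ^ (p ^ 2) * p := by positivity
      nlinarith
    exact_mod_cast h3
  obtain ⟨k₀, hk₀⟩ := eventually_atTop.1 hlim
  obtain ⟨n, hn, c, hc, hclose⟩ := h (max (max (p * (k₀ + 1)) (2 * (b ^ 2 * (K + 1)))) p)
  have hn1 : p * (k₀ + 1) ≤ n := ((le_max_left _ _).trans (le_max_left _ _)).trans hn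
  have hn2 : 2 * (b ^ 2 * (K + 1)) ≤ n := ((le_max_right _ _).trans (le_max_left _ _)).trans hn
  have hfac0 : n.factorial ≠ 0 := Nat.factorial_ne_zero n
  set e := n.factorial.factorization p with he
  obtain ⟨m, hm⟩ : p ^ e ∣ n.factorial := Nat.ordProj_dvd _ _
  have hm0 : m ≠ 0 := by
    rintro rfl
    rw [mul_zero] at hm
    exact hfac0 hm
  have hpm : ¬ p ∣ m := by
    intro hd
    obtain ⟨t, rfl⟩ := hd
    have h1 : p ^ (e + 1) ∣ n.factorial := ⟨t, by rw [hm]; ring⟩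
    have := (hp.pow_dvd_iff_le_factorization hfac0).1 h1
    omega
  -- the exponent is large
  set k := n / p with hk
  have hk1 : k₀ + 1 ≤ k := (Nat.le_div_iff_mul_le hp.pos).2 (by rw [mul_comm]; exact hn1)
  have hke : k ≤ e := by
    refine (hp.pow_dvd_iff_le_factorization hfac0).1 ?_
    exact (pow_dvd_factorial hp.pos k).trans (Nat.factorial_dvd_factorial (Nat.mul_div_le n p))
  have hnk : n ≤ p * (k + 1) := (Nat.lt_mul_div_succ n hp.pos).le
  have hbig := hk₀ k (by omega)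
  have hpe : p ^ k ≤ p ^ e := Nat.pow_le_pow_right hp.pos hke
  refine ⟨p, e, m, c, hp, hpb, Nat.pos_of_ne_zero hm0, hpm, hc p hp (le_max_right _ _), ?_, ?_, ?_⟩
  · refine le_trans ?_ (hbig.trans hpe)
    exact Nat.le_mul_of_pos_right _ (Nat.mul_pos hp.pos (Nat.succ_pos k))
  · intro r hr hrm
    have h1 : r ≤ n := (hr.dvd_factorial).1 (hrm.trans ⟨p ^ e, by rw [hm]; ring⟩)
    refine le_trans ?_ (hbig.trans hpe)
    gcongr
    exact h1.trans hnk
  · rw [← hm]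
    set q := n.factorial with hq
    have hnq : n ≤ q := Nat.self_le_factorial n
    have hq1 : 1 ≤ q := Nat.pos_of_ne_zero hfac0
    have hb0 : (0 : ℝ) < b := by exact_mod_cast (by omega : 0 < b)
    have h1 : ((b : ℝ) ^ 2 * (K + 1)) ≤ q := by
      have : b ^ 2 * (K + 1) ≤ q := by omega
      exact_mod_cast this
    have h2 : ((b : ℝ) ^ 2 * (K + 1)) ^ q ≤ (q : ℝ) ^ q := by gcongr
    have hq0 : (0 : ℝ) < q := by exact_mod_cast hq1
    calc K * ((b : ℝ) ^ (2 * q) * |x - c / (q : ℝ)|) ≤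
        K * ((b : ℝ) ^ (2 * q) * (1 / (q : ℝ) ^ q)) := by gcongr
      _ ≤ K * ((b : ℝ) ^ (2 * q) * (1 / ((b : ℝ) ^ 2 * (K + 1)) ^ q)) := by gcongr
      _ = K / ((K : ℝ) + 1) ^ q := by
          rw [mul_pow, ← pow_mul]
          field_simp
      _ ≤ K / ((K : ℝ) + 1) ^ 1 := by
          apply div_le_div_of_nonneg_left (Nat.cast_nonneg _) (by positivity)
          exact pow_le_pow_right₀ (by linarith [(Nat.cast_nonneg K : (0 : ℝ) ≤ K)]) hq1
      _ ≤ 1 := by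
          rw [pow_one, div_le_one (by positivity)]
          linarith

end Pool.Agent.H82.PP
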