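import Pool.Agent.Y943.Fu.Dense2

/-!
# Periods with a small `p`-part
-/

set_option autoImplicit false

namespace Pool.Agent.H82.PP

open Finset Pool.Agent.Y943.Fu

/-- a prime power which divides a least common multiple -/
theorem pow_dvd_lcm {p j : ℕ} (hp : p.Prime) (hj : 1 ≤ j) (S : Finset ℕ) (f : ℕ → ℕ)
    (hf : ∀ l ∈ S, f l ≠ 0) (h : p ^ j ∣ S.lcm f) : ∃ l ∈ S, p ^ j ∣ f l := by
  classical
  induction S using Finset.induction_on with
  | empty =>
    rw [Finset.lcm_empty] at h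
    have h1 : p ^ j = 1 := Nat.dvd_one.1 h
    have h2 : 1 < p ^ j := Nat.one_lt_pow (by omega) hp.one_lt
    omega
  | insert a S ha ih =>
    rw [Finset.lcm_insert] at h
    have h0 : S.lcm f ≠ 0 := by
      rw [ne_eq, Finset.lcm_eq_zero_iff]
      rintro ⟨l, hl, hl0⟩
      exact hf l (mem_insert_of_mem hl) hl0
    have ha0 : f a ≠ 0 := hf a (mem_insert_self _ _)
    have h1 : Nat.lcm (f a) (S.lcm f) ≠ 0 := Nat.lcm_ne_zero ha0 h0
    have h2 : j ≤ (Nat.lcm (f a) (S.lcm f)).factorization p :=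
      (hp.pow_dvd_iff_le_factorization h1).1 h
    rw [Nat.factorization_lcm ha0 h0, Finsupp.sup_apply] at h2
    rcases le_sup_iff.1 h2 with h3 | h3
    · exact ⟨a, mem_insert_self _ _, (hp.pow_dvd_iff_le_factorization ha0).2 h3⟩
    · obtain ⟨l, hl, h4⟩ := ih (fun l hl => hf l (mem_insert_of_mem hl))
        ((hp.pow_dvd_iff_le_factorization h0).2 h3)
      exact ⟨l, mem_insert_of_mem hl, h4⟩

/-- the period -/
def per (b m : ℕ) : ℕ :=
  (m.primeFactors.filter (fun l => ¬ l ∣ b)).lcm (fun l => Nat.totient (l ^ m.factorization l))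

theorem per_pos (b m : ℕ) : per b m ≠ 0 := by
  unfold per
  rw [ne_eq, Finset.lcm_eq_zero_iff]
  rintro ⟨l, hl, hl0⟩
  rw [mem_filter, Nat.mem_primeFactors] at hl
  exact (Nat.totient_pos.2 (pow_pos hl.1.1.pos _)).ne' hl0

theorem per_le {b m : ℕ} (hm : 1 ≤ m) : per b m ≤ m := by
  refine le_trans ?_ (exponent_le (b := b) hm).2
  refine Nat.le_of_dvd ?_ (Finset.lcm_dvd fun l hl => dvd_prod_of_mem _ hl)
  have := (exponent_le (b := b) hm).1
  omega

theorem dvd_per {b m n₀ : ℕ} (hb : 1 ≤ b) (hm : 1 ≤ m) (hn₀ : m < 2 ^ n₀) :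
    m ∣ b ^ n₀ * (b ^ per b m - 1) := by
  rw [Nat.dvd_iff_prime_pow_dvd_dvd]
  intro l k hl hk
  rcases Nat.eq_zero_or_pos k with rfl | hk0
  · simp
  have hlr : l ∣ m := (dvd_pow_self l hk0.ne').trans hk
  have hk2 : k ≤ m.factorization l := (hl.pow_dvd_iff_le_factorization (by omega)).1 hk
  by_cases hlb : l ∣ b
  · refine Dvd.dvd.mul_right ?_ _
    have h1 : k ≤ n₀ := by
      by_contra hcon
      push Not at hcon
      have h2 : l ^ k ≤ m := Nat.le_of_dvd hm hk
      have h3 : 2 ^ n₀ ≤ l ^ k := by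
        calc 2 ^ n₀ ≤ 2 ^ k := Nat.pow_le_pow_right (by norm_num) hcon.le
          _ ≤ l ^ k := Nat.pow_le_pow_left hl.two_le k
      omega
    exact (pow_dvd_pow l h1).trans (pow_dvd_pow_of_dvd hlb n₀)
  · refine Dvd.dvd.mul_left ?_ _
    refine (pow_dvd_pow l hk2).trans ?_
    have h4 : l ∈ m.primeFactors.filter (fun l => ¬ l ∣ b) := by
      rw [mem_filter, Nat.mem_primeFactors]
      exact ⟨⟨hl, hlr, by omega⟩, hlb⟩
    have h5 : Nat.totient (l ^ m.factorization l) ∣ per b m :=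
      Finset.dvd_lcm (f := fun l => Nat.totient (l ^ m.factorization l)) h4
    have h6 : Nat.Coprime b (l ^ m.factorization l) :=
      Nat.Coprime.pow_right _ ((Nat.Prime.coprime_iff_not_dvd hl).2 hlb).symm
    have h7 := Nat.ModEq.pow_totient h6
    obtain ⟨s, hs⟩ := h5
    rw [hs, pow_mul]
    have h8 : b ^ Nat.totient (l ^ m.factorization l) - 1 ∣
        (b ^ Nat.totient (l ^ m.factorization l)) ^ s - 1 := by
      have := Nat.sub_dvd_pow_sub_pow (b ^ Nat.totient (l ^ m.factorization l)) 1 s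
      rwa [one_pow] at this
    refine dvd_trans ?_ h8
    exact (Nat.modEq_iff_dvd' (Nat.one_le_pow _ _ hb)).1 h7.symm

/-- the `p`-part of the period is less than a prime factor of `m` -/
theorem per_part {b m p : ℕ} (hp : p.Prime) (hpm : ¬ p ∣ m) :
    (per b m).factorization p = 0 ∨
      ∃ r : ℕ, r.Prime ∧ r ∣ m ∧ p ^ (per b m).factorization p ≤ r := by
  rcases Nat.eq_zero_or_pos ((per b m).factorization p) with h0 | h0
  · exact Or.inl h0
  right
  have h1 : p ^ (per b m).factorization p ∣ per b m := Nat.ordProj_dvd _ _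
  obtain ⟨l, hl, h2⟩ := pow_dvd_lcm hp h0 _ _ (fun l hl => by
    rw [mem_filter, Nat.mem_primeFactors] at hl
    exact (Nat.totient_pos.2 (pow_pos hl.1.1.pos _)).ne') h1
  rw [mem_filter, Nat.mem_primeFactors] at hl
  obtain ⟨⟨hlp, hlm, _⟩, _⟩ := hl
  refine ⟨l, hlp, hlm, ?_⟩
  have h3 : 0 < m.factorization l := hlp.factorization_pos_of_dvd (by omega) hlm
  rw [Nat.totient_prime_pow hlp h3] at h2
  have hne : p ≠ l := by
    rintro rfl
    exact hpm hlm
  have h4 : Nat.Coprime (p ^ (per b m).factorization p) (l ^ (m.factorization l - 1)) :=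
    Nat.Coprime.pow _ _ ((Nat.coprime_primes hp hlp).2 hne)
  have h5 := h4.dvd_of_dvd_mul_left h2
  have h6 := Nat.le_of_dvd (Nat.sub_pos_of_lt hlp.one_lt) h5
  omega

end Pool.Agent.H82.PP
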